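import Pool.Agent.Helper98_PP.StmtsR2
import Pool.Agent.Helper94_PP.Nch

/-!
# Squad PP, module NCG: only the normal chains matter, for a weight on chains
-/

open scoped BigOperators

noncomputable section

namespace Pool.Agent.PP.H31

open Pool.Agent.Helper51_AWC Pool.Agent.Helper79_WRA Pool.Agent.PP Pool.Agent.PP.H94

variable {G : Type} [Group G]

open Classical in
theorem loc_eq (d : Finset (Subgroup G)) (B : Subgroup G) :
    loc d B = B ⊓ ⨅ E ∈ d.filter (fun D => D < B), Subgroup.normalizer (E : Set G) := by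
  ext x
  rw [mem_loc]
  simp only [Subgroup.mem_inf, Subgroup.mem_iInf, Finset.mem_filter]
  exact and_congr_right fun _ => ⟨fun h D h1 => h D h1.1 h1.2, fun h D h1 h2 => h D ⟨h1, h2⟩⟩

theorem sum_toggleC {α : Type*} [PartialOrder α] [DecidableEq α] (S : Finset (Finset α))
    (e : Finset α → α)
    (f : Finset α → ℂ) (h1 : ∀ d ∈ S, toggle d (e d) ∈ S)
    (h2 : ∀ d ∈ S, e (toggle d (e d)) = e d)
    (h3 : ∀ d ∈ S, f (toggle d (e d)) = - f d) : ∑ d ∈ S, f d = 0 := by
  apply Finset.sum_involution (fun d _ => toggle d (e d))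
  · intro d hd; rw [h3 d hd]; ring
  · intro d _ _; exact toggle_ne _ _
  · intro d hd; exact h1 d hd
  · intro d hd
    rw [h2 d hd, toggle_toggle]

/-- NCG -/
theorem ncg : NcgStmt := by
  classical
  intro ℓ _ G _ _ P W hPp hbot hP hW
  have hPl : ∀ c : Finset (Subgroup G), c ⊆ P → IsChain (· ≤ ·) (c : Set (Subgroup G)) →
      ∀ D ∈ c, loc c D ∈ P := by
    intro c hc _ D hD
    rw [loc_eq]
    exact hP _ ((Finset.filter_subset _ _).trans hc) D (hc hD)
      (fun E hE => (Finset.mem_filter.1 hE).2.le)
  have hins : ∀ d ∈ chainsOn P ⊥, ∀ B ∈ d, W (insert (loc d B) d) = W d := by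
    intro d hd B hB
    have := hW d hd (d.filter (fun D => D < B)) (Finset.filter_subset _ _) B hB
      (fun E hE => (Finset.mem_filter.1 hE).2.le)
    rw [loc_eq]
    exact this
  set S := (chainsOn P ⊥).filter (fun d => ¬ NormalChain d) with hS
  have key : ∑ d ∈ S, (-1) ^ (d.card + 1) * W d = 0 := by
    have hex : ∀ d : Finset (Subgroup G), ∃ B, d ∈ S → IsB d B := by
      intro d
      by_cases hd : d ∈ S
      · rw [hS, Finset.mem_filter, mem_chainsOn] at hd
        obtain ⟨B, hB⟩ := exists_isB hd.1.2.2 hd.2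
        exact ⟨B, fun _ => hB⟩
      · exact ⟨⊥, fun h => absurd h hd⟩
    choose B hB using hex
    have hmem : ∀ d ∈ S, toggle d (loc d (B d)) ∈ S := by
      intro d hd
      have h1 := hB d hd
      rw [hS, Finset.mem_filter] at hd ⊢
      obtain ⟨a1, a2, a3, a4, a5⟩ := toggle_props hPp hPl hd.1 h1
      refine ⟨a1, fun hn => ?_⟩
      obtain ⟨D, hD, b1, b2⟩ := a2.2.1
      have := hn D hD
      exact b2 (((top_mem (mem_chainsOn.1 a1).2.2 ⟨D, hD⟩).2 _ a2.1).trans this)
    apply sum_toggleC S (fun d => loc d (B d))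
    · exact hmem
    · intro d hd
      have h1 := hB d hd
      obtain ⟨a1, a2, a3, a4, a5⟩ := toggle_props hPp hPl (Finset.mem_filter.1 hd).1 h1
      have h2 := hB _ (hmem d hd)
      have h3 : B (toggle d (loc d (B d))) = B d := h2.unique a2
      change loc (toggle d (loc d (B d))) (B (toggle d (loc d (B d)))) = _
      rw [h3, a3]
    · intro d hd
      have hdc := (Finset.mem_filter.1 hd).1
      obtain ⟨a1, a2, a3, a4, a5⟩ := toggle_props hPp hPl hdc (hB d hd)
      have hc : (-1 : ℂ) ^ ((toggle d (loc d (B d))).card + 1) = - (-1) ^ (d.card + 1) ∧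
          W (toggle d (loc d (B d))) = W d := by
        by_cases hm : loc d (B d) ∈ d
        · have et : toggle d (loc d (B d)) = d.erase (loc d (B d)) := by rw [toggle, if_pos hm]
          have hw := hins _ a1 (B d) a2.1
          rw [a3] at hw
          rw [et] at hw ⊢
          rw [Finset.insert_erase hm] at hw
          refine ⟨?_, hw.symm⟩
          rw [Finset.card_erase_of_mem hm]
          have : 0 < d.card := Finset.card_pos.2 ⟨_, hm⟩
          obtain ⟨k, hk⟩ : ∃ k, d.card = k + 1 := ⟨d.card - 1, by omega⟩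
          rw [hk, Nat.add_sub_cancel]
          ring
        · have et : toggle d (loc d (B d)) = insert (loc d (B d)) d := by rw [toggle, if_neg hm]
          rw [et]
          refine ⟨?_, hins d hdc (B d) (hB d hd).1⟩
          rw [Finset.card_insert_of_notMem hm]
          ring
      rw [hc.1, hc.2]
      ring
  rw [← Finset.sum_filter_add_sum_filter_not (chainsOn P ⊥) NormalChain, key, add_zero]

end Pool.Agent.PP.H31
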