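import Pool.Agent.Helper18_PP.StmtsC

/-!
# Squad PP, module SHS: summation over the second variable
-/

open scoped BigOperators

noncomputable section

namespace Pool.Agent.PP.H31

open Pool.Agent.Helper51_AWC Pool.Agent.Helper79_WRA Pool.Agent.PP

/-- SHS -/
theorem shs : ShsStmt := by
  classical
  intro K _ _ p β₀ α β hβ G hG
  have := Fintype.ofFinite K
  simp only [finsum_eq_sum_of_fintype]
  rw [Finset.sum_comm]
  conv_rhs => rw [Finset.sum_comm]
  have hS : ∀ h m : Fin (p + 1) → K,
      ∑ n, G n (β⁻¹ h * m * h⁻¹) = ∑ n, G n m := by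
    intro h m
    rw [← Equiv.sum_comp ((Equiv.mulLeft (α⁻¹ h)).trans (Equiv.mulRight h⁻¹))]
    exact Finset.sum_congr rfl fun n _ => hG h n m
  have hsh : ∀ (h : Fin (p + 1) → K) (j : Fin p), (β⁻¹ h) j.castSucc = h j.succ := by
    intro h j
    rw [← (hβ (β⁻¹ h)).2 j]
    rw [MulAut.apply_inv_self]
  let Φ : (Fin p → K) × K → (Fin (p + 1) → K) := fun q =>
    β⁻¹ (Fin.cons 1 q.1 : Fin (p + 1) → K) * Pi.mulSingle (Fin.last p) q.2 *
      (Fin.cons 1 q.1 : Fin (p + 1) → K)⁻¹
  have hinj : Function.Injective Φ := by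
    rintro ⟨g, μ⟩ ⟨g', μ'⟩ h
    have key : ∀ j : Fin (p + 1), (Fin.cons 1 g : Fin (p + 1) → K) j =
        (Fin.cons 1 g' : Fin (p + 1) → K) j := by
      intro j
      induction j using Fin.induction with
      | zero => rfl
      | succ j ih =>
        have h1 := congrFun h j.castSucc
        simp only [Φ, Pi.mul_apply, Pi.inv_apply] at h1
        rw [hsh, hsh, Pi.mulSingle_eq_of_ne (Fin.castSucc_lt_last j).ne,
          Pi.mulSingle_eq_of_ne (Fin.castSucc_lt_last j).ne, ih] at h1
        simpa using h1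
    have hc : (Fin.cons 1 g : Fin (p + 1) → K) = Fin.cons 1 g' := funext key
    have hg : g = g' := by
      have := congrArg Fin.tail hc
      simpa using this
    subst hg
    have h1 := congrFun h (Fin.last p)
    simp only [Φ, Pi.mul_apply, Pi.inv_apply, Pi.mulSingle_eq_same] at h1
    have h2 : μ = μ' := by
      have h3 := mul_right_cancel h1
      exact mul_left_cancel h3
    rw [h2]
  have hbij : Function.Bijective Φ := by
    rw [Fintype.bijective_iff_injective_and_card]
    refine ⟨hinj, ?_⟩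
    simp [pow_succ]
  rw [← (Equiv.ofBijective Φ hbij).sum_comp]
  have h1 : ∀ q : (Fin p → K) × K, ∑ n, G n ((Equiv.ofBijective Φ hbij) q) =
      ∑ n, G n (Pi.mulSingle (Fin.last p) q.2) := fun q => hS _ _
  rw [Finset.sum_congr rfl fun q _ => h1 q, Fintype.sum_prod_type]
  simp only [Finset.sum_const, Finset.card_univ, nsmul_eq_mul]
  congr 1
  simp

end Pool.Agent.PP.H31
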