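import Pool.Agent.Helper9_PP.Prc
import Pool.Agent.Helper90_PP.Ccp
import Pool.Agent.Helper65_PP.Shf
import Pool.Agent.Helper17_PP.Ops
import Pool.Agent.Helper46_PP.BlkProd
import Pool.Agent.Helper5_PP.Pib
import Pool.Agent.Helper18_PP.CydF

/-!
# Squad PP, part R2, module PRD: the pair sum of a direct product of two torus data
-/

open scoped BigOperators

set_option linter.unusedSectionVars false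

noncomputable section

namespace Pool.Agent.PP.H31

open Pool.Agent.PP Pool.Agent.Helper51_AWC Pool.Agent.Helper79_WRA

variable {F Y₁ Y₂ : Type} [Field F] [Group Y₁] [Group Y₂]

/-- the first component of an element of a product of subgroups -/
def c1 {X₁ : Subgroup Y₁} {X₂ : Subgroup Y₂} (x : X₁.prod X₂) : X₁ :=
  ⟨(x : Y₁ × Y₂).1, (Subgroup.mem_prod.1 x.2).1⟩

/-- the second component -/
def c2 {X₁ : Subgroup Y₁} {X₂ : Subgroup Y₂} (x : X₁.prod X₂) : X₂ :=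
  ⟨(x : Y₁ × Y₂).2, (Subgroup.mem_prod.1 x.2).2⟩

/-- the outer product of two functions on subgroups -/
def pf {X₁ : Subgroup Y₁} {X₂ : Subgroup Y₂} (φ₁ : X₁ → F) (φ₂ : X₂ → F) : X₁.prod X₂ → F :=
  fun x => φ₁ (c1 x) * φ₂ (c2 x)

theorem pf_eq {X₁ : Subgroup Y₁} {X₂ : Subgroup Y₂} (φ₁ : X₁ → F) (φ₂ : X₂ → F) :
    pf φ₁ φ₂ = fun x => (fun y : X₁ × X₂ => φ₁ y.1 * φ₂ y.2) (X₁.prodEquiv X₂ x) := rfl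

theorem kr_sum {n m : ℕ} {S T : Type} [Fintype S] [Fintype T] (f : S → Matrix (Fin n) (Fin n) F)
    (g : T → Matrix (Fin m) (Fin m) F) :
    kr (∑ s, f s) (∑ t, g t) = ∑ p : S × T, kr (f p.1) (g p.2) := by
  have hl : ∀ (s : Finset S) (B : Matrix (Fin m) (Fin m) F),
      kr (∑ i ∈ s, f i) B = ∑ i ∈ s, kr (f i) B := by
    classical
    intro s B
    induction s using Finset.induction_on with
    | empty => rw [Finset.sum_empty, Finset.sum_empty, H33.kr_zero_left]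
    | insert a s ha ih => rw [Finset.sum_insert ha, Finset.sum_insert ha, H33.kr_add_left, ih]
  have hr : ∀ (s : Finset T) (A : Matrix (Fin n) (Fin n) F),
      kr A (∑ i ∈ s, g i) = ∑ i ∈ s, kr A (g i) := by
    classical
    intro s A
    induction s using Finset.induction_on with
    | empty => rw [Finset.sum_empty, Finset.sum_empty, H33.kr_zero_right]
    | insert a s ha ih => rw [Finset.sum_insert ha, Finset.sum_insert ha, H33.kr_add_right, ih]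
  rw [hl, Fintype.sum_prod_type]
  refine Finset.sum_congr rfl fun s _ => ?_
  rw [hr]

theorem kr_scalar {n m : ℕ} (s t : F) :
    kr (Matrix.scalar (Fin n) s) (Matrix.scalar (Fin m) t) = Matrix.scalar (Fin (n * m)) (s * t) := by
  have h : ∀ (k : ℕ) (c : F), Matrix.scalar (Fin k) c = c • (1 : Matrix (Fin k) (Fin k) F) := by
    intro k c
    rw [Matrix.scalar_apply, ← Matrix.smul_one_eq_diagonal]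
  rw [h, h, h, H33.kr_smul_left, H33.kr_smul_right, H33.kr_one, smul_smul]

/-- the Kronecker product of two units -/
def krU {n m : ℕ} (A : (Matrix (Fin n) (Fin n) F)ˣ) (B : (Matrix (Fin m) (Fin m) F)ˣ) :
    (Matrix (Fin (n * m)) (Fin (n * m)) F)ˣ where
  val := kr (A : Matrix (Fin n) (Fin n) F) (B : Matrix (Fin m) (Fin m) F)
  inv := kr ((A⁻¹ : (Matrix (Fin n) (Fin n) F)ˣ) : Matrix (Fin n) (Fin n) F)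
    ((B⁻¹ : (Matrix (Fin m) (Fin m) F)ˣ) : Matrix (Fin m) (Fin m) F)
  val_inv := by rw [← H33.kr_mul, Units.mul_inv, Units.mul_inv, H33.kr_one]
  inv_val := by rw [← H33.kr_mul, Units.inv_mul, Units.inv_mul, H33.kr_one]

theorem krU_mul {n m : ℕ} (A A' : (Matrix (Fin n) (Fin n) F)ˣ) (B B' : (Matrix (Fin m) (Fin m) F)ˣ) :
    krU A B * krU A' B' = krU (A * A') (B * B') := by
  apply Units.ext
  exact (H33.kr_mul _ _ _ _).symm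

theorem krU_inv {n m : ℕ} (A : (Matrix (Fin n) (Fin n) F)ˣ) (B : (Matrix (Fin m) (Fin m) F)ˣ) :
    (krU A B)⁻¹ = krU A⁻¹ B⁻¹ := by
  apply Units.ext
  rfl

/-- the outer tensor product on a product of subgroups -/
def prR {X₁ : Subgroup Y₁} {X₂ : Subgroup Y₂} {n m : ℕ} (ρ₁ : X₁ →* Matrix (Fin n) (Fin n) F)
    (ρ₂ : X₂ →* Matrix (Fin m) (Fin m) F) : X₁.prod X₂ →* Matrix (Fin (n * m)) (Fin (n * m)) F :=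
  (H5.prodRep ρ₁ ρ₂).comp (X₁.prodEquiv X₂).toMonoidHom

theorem prR_apply {X₁ : Subgroup Y₁} {X₂ : Subgroup Y₂} {n m : ℕ}
    (ρ₁ : X₁ →* Matrix (Fin n) (Fin n) F) (ρ₂ : X₂ →* Matrix (Fin m) (Fin m) F) (x : X₁.prod X₂) :
    prR ρ₁ ρ₂ x = kr (ρ₁ (c1 x)) (ρ₂ (c2 x)) := rfl

theorem ev_prR [Finite Y₁] [Finite Y₂] {X₁ : Subgroup Y₁} {X₂ : Subgroup Y₂} {n m : ℕ}
    (ρ₁ : X₁ →* Matrix (Fin n) (Fin n) F) (ρ₂ : X₂ →* Matrix (Fin m) (Fin m) F)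
    (v₁ : Y₁ → F) (v₂ : Y₂ → F) :
    ev (prR ρ₁ ρ₂) (fun t : X₁.prod X₂ => v₁ (t : Y₁ × Y₂).1 * v₂ (t : Y₁ × Y₂).2) =
      kr (ev ρ₁ (fun t : X₁ => v₁ t)) (ev ρ₂ (fun t : X₂ => v₂ t)) := by
  have := Fintype.ofFinite X₁
  have := Fintype.ofFinite X₂
  unfold ev
  have h1 : ∀ t : X₁.prod X₂, (v₁ (t : Y₁ × Y₂).1 * v₂ (t : Y₁ × Y₂).2) • prR ρ₁ ρ₂ t =
      (fun y : X₁ × X₂ => kr (v₁ y.1 • ρ₁ y.1) (v₂ y.2 • ρ₂ y.2)) ((X₁.prodEquiv X₂).toEquiv t) := by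
    intro t
    show _ = kr (v₁ (c1 t) • ρ₁ (c1 t)) (v₂ (c2 t) • ρ₂ (c2 t))
    rw [H33.kr_smul_left, H33.kr_smul_right, smul_smul]
    rfl
  refine (finsum_congr h1).trans ((finsum_comp_equiv (X₁.prodEquiv X₂).toEquiv
    (f := fun y : X₁ × X₂ => kr (v₁ y.1 • ρ₁ y.1) (v₂ y.2 • ρ₂ y.2))).trans ?_)
  simp only [finsum_eq_sum_of_fintype]
  rw [kr_sum]

theorem isTS_prod [Finite Y₁] [Finite Y₂] {X₁ : Subgroup Y₁} {X₂ : Subgroup Y₂}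
    {φ₁ : X₁ → F} {φ₂ : X₂ → F} {γ₁ δ₁ : MulAut Y₁} {γ₂ δ₂ : MulAut Y₂} {v₁ : Y₁ → F} {v₂ : Y₂ → F}
    {s₁ s₂ : F} (h₁ : IsTS X₁ φ₁ γ₁ δ₁ v₁ s₁) (h₂ : IsTS X₂ φ₂ γ₂ δ₂ v₂ s₂) :
    IsTS (X₁.prod X₂) (pf φ₁ φ₂) (MulEquiv.prodCongr γ₁ γ₂) (MulEquiv.prodCongr δ₁ δ₂)
      (fun y => v₁ y.1 * v₂ y.2) (s₁ * s₂) := by
  obtain ⟨n, ρ₁, A₁, B₁, hρ₁, rfl, hA₁, hB₁, hs₁⟩ := h₁
  obtain ⟨m, ρ₂, A₂, B₂, hρ₂, rfl, hA₂, hB₂, hs₂⟩ := h₂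
  have himp : ∀ {γ₁ : MulAut Y₁} {γ₂ : MulAut Y₂} {A₁ : (Matrix (Fin n) (Fin n) F)ˣ}
      {A₂ : (Matrix (Fin m) (Fin m) F)ˣ}, Impl ρ₁ γ₁ A₁ → Impl ρ₂ γ₂ A₂ →
      Impl (prR ρ₁ ρ₂) (MulEquiv.prodCongr γ₁ γ₂ : MulAut (Y₁ × Y₂)) (krU A₁ A₂) := by
    intro γ₁ γ₂ A₁ A₂ h1 h2 h h' hh
    show kr (A₁ : Matrix (Fin n) (Fin n) F) (A₂ : Matrix (Fin m) (Fin m) F) *
      kr (ρ₁ (c1 h)) (ρ₂ (c2 h)) = kr (ρ₁ (c1 h')) (ρ₂ (c2 h')) *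
      kr (A₁ : Matrix (Fin n) (Fin n) F) (A₂ : Matrix (Fin m) (Fin m) F)
    rw [← H33.kr_mul, ← H33.kr_mul, h1 (c1 h) (c1 h') (congrArg Prod.fst hh),
      h2 (c2 h) (c2 h') (congrArg Prod.snd hh)]
  refine ⟨n * m, prR ρ₁ ρ₂, krU A₁ A₂, krU B₁ B₂,
    H51.isIrr_comp _ (H5.prodRep_irr hρ₁ hρ₂), ?_, himp hA₁ hA₂, himp hB₁ hB₂, ?_⟩
  · funext x
    show (kr (ρ₁ (c1 x)) (ρ₂ (c2 x))).trace = _
    rw [H33.kr_trace]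
    rfl
  · rw [krU_inv, krU_inv, krU_mul, krU_mul, krU_mul, ev_prR]
    show kr _ _ * _ = _
    rw [← H33.kr_mul, hs₁, hs₂, kr_scalar]

theorem actF_pf [Finite Y₁] [Finite Y₂] {X₁ : Subgroup Y₁} {X₂ : Subgroup Y₂} (f₁ : Y₁ → F)
    (f₂ : Y₂ → F) (φ₁ : X₁ → F) (φ₂ : X₂ → F) :
    actF (fun t : X₁.prod X₂ => f₁ (t : Y₁ × Y₂).1 * f₂ (t : Y₁ × Y₂).2) (pf φ₁ φ₂) =
      pf (actF (fun t : X₁ => f₁ t) φ₁) (actF (fun t : X₂ => f₂ t) φ₂) := by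
  classical
  have := Fintype.ofFinite X₁
  have := Fintype.ofFinite X₂
  funext x
  unfold actF pf
  have h1 : ∀ t : X₁.prod X₂, f₁ (t : Y₁ × Y₂).1 * f₂ (t : Y₁ × Y₂).2 *
      (φ₁ (c1 (t * x)) * φ₂ (c2 (t * x))) =
      (fun y : X₁ × X₂ => (f₁ y.1 * φ₁ (y.1 * c1 x)) * (f₂ y.2 * φ₂ (y.2 * c2 x)))
        ((X₁.prodEquiv X₂).toEquiv t) := by
    intro t
    show _ = (f₁ (c1 t) * φ₁ (c1 t * c1 x)) * (f₂ (c2 t) * φ₂ (c2 t * c2 x))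
    have e1 : c1 (t * x) = c1 t * c1 x := rfl
    have e2 : c2 (t * x) = c2 t * c2 x := rfl
    rw [e1, e2]
    show f₁ (t : Y₁ × Y₂).1 * f₂ (t : Y₁ × Y₂).2 * _ = (f₁ (t : Y₁ × Y₂).1 * _) *
      (f₂ (t : Y₁ × Y₂).2 * _)
    ring
  refine (finsum_congr h1).trans ((finsum_comp_equiv (X₁.prodEquiv X₂).toEquiv
    (f := fun y : X₁ × X₂ =>
      (f₁ y.1 * φ₁ (y.1 * c1 x)) * (f₂ y.2 * φ₂ (y.2 * c2 x)))).trans ?_)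
  simp only [finsum_eq_sum_of_fintype]
  rw [Fintype.sum_prod_type, Finset.sum_mul_sum]

section chars

variable [Finite Y₁] [Finite Y₂] {d₁ : Finset (Subgroup Y₁)} {d₂ : Finset (Subgroup Y₂)}
  {f₁ : Y₁ → F} {f₂ : Y₂ → F} {γ₁ δ₁ : MulAut Y₁} {γ₂ δ₂ : MulAut Y₂}

/-- the element of the product -/
def mk {X₁ : Subgroup Y₁} {X₂ : Subgroup Y₂} (x : X₁) (y : X₂) : X₁.prod X₂ :=
  ⟨((x : Y₁), (y : Y₂)), Subgroup.mem_prod.2 ⟨x.2, y.2⟩⟩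

theorem pf_mk {X₁ : Subgroup Y₁} {X₂ : Subgroup Y₂} (φ₁ : X₁ → F) (φ₂ : X₂ → F) (x : X₁) (y : X₂) :
    pf φ₁ φ₂ (mk x y) = φ₁ x * φ₂ y := rfl

theorem tset_prod (the : TheStmt) {ℓ : ℕ} (hF : GoodF ℓ F)
    (hd₁ : d₁ ∈ chainsOn (psubIn ℓ (⊤ : Subgroup Y₁)) ⊥) (hn₁ : NormalChain d₁)
    (hd₂ : d₂ ∈ chainsOn (psubIn ℓ (⊤ : Subgroup Y₂)) ⊥) (hn₂ : NormalChain d₂)
    (hf₁ : IsBlk f₁) (hf₂ : IsBlk f₂) (hγ₁ : FixC γ₁ d₁) (hδ₁ : FixC δ₁ d₁) (hγ₂ : FixC γ₂ d₂)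
    (hδ₂ : FixC δ₂ d₂) :
    Set.BijOn (fun p : (stab d₁ → F) × (stab d₂ → F) => pf p.1 p.2)
      (tset (stab d₁) f₁ γ₁ δ₁ ×ˢ tset (stab d₂) f₂ γ₂ δ₂)
      (tset ((stab d₁).prod (stab d₂)) (fun y => f₁ y.1 * f₂ y.2) (MulEquiv.prodCongr γ₁ γ₂)
        (MulEquiv.prodCongr δ₁ δ₂)) := by
  obtain ⟨_, P2, P3, P4⟩ := H5.pib ℓ F hF (stab d₁) (stab d₂)
  refine ⟨?_, ?_, ?_⟩
  · rintro ⟨φ₁, φ₂⟩ ⟨⟨a1, a2, a3, a4⟩, ⟨b1, b2, b3, b4⟩⟩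
    refine ⟨?_, ?_, ?_, ?_⟩
    · exact H51.ibr_equiv ((stab d₁).prodEquiv (stab d₂)) (P2 φ₁ a1 φ₂ b1)
    · refine (actF_pf f₁ f₂ φ₁ φ₂).trans ?_
      rw [a2, b2]
    · intro h h' hh
      show φ₁ (c1 h') * φ₂ (c2 h') = φ₁ (c1 h) * φ₂ (c2 h)
      exact congrArg₂ (· * ·) (a3 (c1 h) (c1 h') (congrArg Prod.fst hh))
        (b3 (c2 h) (c2 h') (congrArg Prod.snd hh))
    · intro h h' hh
      show φ₁ (c1 h') * φ₂ (c2 h') = φ₁ (c1 h) * φ₂ (c2 h)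
      exact congrArg₂ (· * ·) (a4 (c1 h) (c1 h') (congrArg Prod.fst hh))
        (b4 (c2 h) (c2 h') (congrArg Prod.snd hh))
  · rintro ⟨φ₁, φ₂⟩ ⟨⟨a1, _⟩, ⟨b1, _⟩⟩ ⟨ψ₁, ψ₂⟩ ⟨⟨a1', _⟩, ⟨b1', _⟩⟩ h
    have := P4 φ₁ a1 φ₂ b1 ψ₁ a1' ψ₂ b1' (fun x y => congrFun h (mk x y))
    exact Prod.ext this.1 this.2
  · rintro φ ⟨h1, h2, h3, h4⟩
    obtain ⟨φ₁, a1, φ₂, b1, hφ⟩ := P3 _ (H51.ibr_equiv ((stab d₁).prodEquiv (stab d₂)).symm h1)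
    have hφ' : φ = pf φ₁ φ₂ := by
      funext x
      exact congrFun hφ ((stab d₁).prodEquiv (stab d₂) x)
    subst hφ'
    have key : ∀ {γ₁ : MulAut Y₁} {γ₂ : MulAut Y₂} (hγ₁ : FixC γ₁ d₁) (hγ₂ : FixC γ₂ d₂),
        (∀ h h' : (stab d₁).prod (stab d₂), (h' : Y₁ × Y₂) =
          (MulEquiv.prodCongr γ₁ γ₂ : MulAut (Y₁ × Y₂)) h → pf φ₁ φ₂ h' = pf φ₁ φ₂ h) →
        (∀ h h' : stab d₁, (h' : Y₁) = γ₁ h → φ₁ h' = φ₁ h) ∧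
        ∀ h h' : stab d₂, (h' : Y₂) = γ₂ h → φ₂ h' = φ₂ h := by
      intro γ₁ γ₂ hγ₁ hγ₂ h5
      have e1 := H21.FixC.stab_iff hγ₁
      have e2 := H21.FixC.stab_iff hγ₂
      have h6 := P4 (fun t => φ₁ (H90.C.resE γ₁ e1 t)) (H51.ibr_equiv (H90.C.resE γ₁ e1) a1)
        (fun t => φ₂ (H90.C.resE γ₂ e2 t)) (H51.ibr_equiv (H90.C.resE γ₂ e2) b1) φ₁ a1 φ₂ b1 (by
          intro x y
          exact h5 (mk x y) (mk (H90.C.resE γ₁ e1 x) (H90.C.resE γ₂ e2 y)) rfl)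
      refine ⟨fun h h' hh => ?_, fun h h' hh => ?_⟩
      · have h7 : h' = H90.C.resE γ₁ e1 h := Subtype.ext hh
        rw [h7]
        exact congrFun h6.1 h
      · have h7 : h' = H90.C.resE γ₂ e2 h := Subtype.ext hh
        rw [h7]
        exact congrFun h6.2 h
    obtain ⟨c, hcc, hc⟩ := H90.C.act_scal the hF hd₁ hn₁ hf₁ a1
    obtain ⟨e, hee, he⟩ := H90.C.act_scal the hF hd₂ hn₂ hf₂ b1
    obtain ⟨x, hx⟩ := H90.C.exists_ne a1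
    obtain ⟨y, hy⟩ := H90.C.exists_ne b1
    have h5 := congrFun ((actF_pf f₁ f₂ φ₁ φ₂).symm.trans h2) (mk x y)
    rw [pf_mk, pf_mk, hc, he, Pi.smul_apply, Pi.smul_apply, smul_eq_mul, smul_eq_mul] at h5
    have h6 : c * e = 1 := by
      have h7 : (c * e) * (φ₁ x * φ₂ y) = 1 * (φ₁ x * φ₂ y) := by
        linear_combination h5
      exact mul_right_cancel₀ (mul_ne_zero hx hy) h7
    have hc1 : c = 1 := by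
      have hc0 : c ≠ 0 := by
        rintro rfl
        rw [zero_mul] at h6
        exact zero_ne_one h6
      exact mul_right_cancel₀ hc0 (by rw [hcc, one_mul])
    have he1 : e = 1 := by
      rw [hc1, one_mul] at h6
      exact h6
    rw [hc1, one_smul] at hc
    rw [he1, one_smul] at he
    have k1 := key hγ₁ hγ₂ h3
    have k2 := key hδ₁ hδ₂ h4
    exact ⟨(φ₁, φ₂), ⟨⟨a1, hc, k1.1, k2.1⟩, ⟨b1, he, k1.2, k2.2⟩⟩, rfl⟩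

end chars

/-- a finite sum over a product -/
theorem fs_prod {A B : Type} {S : Set A} {T : Set B} (hS : S.Finite) (hT : T.Finite) (g : A → ℂ)
    (h : B → ℂ) : ∑ᶠ p ∈ S ×ˢ T, g p.1 * h p.2 = (∑ᶠ a ∈ S, g a) * ∑ᶠ b ∈ T, h b := by
  classical
  rw [finsum_mem_eq_finite_toFinset_sum _ hS, finsum_mem_eq_finite_toFinset_sum _ hT,
    finsum_mem_eq_finite_toFinset_sum _ (hS.prod hT), Finset.sum_mul_sum, ← Finset.sum_product']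
  refine Finset.sum_congr ?_ fun _ _ => rfl
  ext p
  simp

section con

variable [Finite Y₁] [Finite Y₂]

theorem cc_prod (α₁ β₁ : MulAut Y₁) (α₂ β₂ : MulAut Y₂) (n m : Y₁ × Y₂) :
    cc (MulEquiv.prodCongr α₁ α₂ : MulAut (Y₁ × Y₂)) (MulEquiv.prodCongr β₁ β₂) n m =
      (cc α₁ β₁ n.1 m.1, cc α₂ β₂ n.2 m.2) := rfl

theorem tcon_prod {ℓ : ℕ} (hF : GoodF ℓ F) {d₁ : Finset (Subgroup Y₁)}
    {d₂ : Finset (Subgroup Y₂)} {d : Finset (Subgroup (Y₁ × Y₂))} {f₁ : Y₁ → F} {f₂ : Y₂ → F}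
    {γ₁ δ₁ : MulAut Y₁} {γ₂ δ₂ : MulAut Y₂}
    (hd₁ : d₁ ∈ chainsOn (psubIn ℓ (⊤ : Subgroup Y₁)) ⊥) (hn₁ : NormalChain d₁)
    (hd₂ : d₂ ∈ chainsOn (psubIn ℓ (⊤ : Subgroup Y₂)) ⊥) (hn₂ : NormalChain d₂)
    (hγ₁ : FixC γ₁ d₁) (hδ₁ : FixC δ₁ d₁) (hγ₂ : FixC γ₂ d₂)
    (hδ₂ : FixC δ₂ d₂) (hst : stab d = (stab d₁).prod (stab d₂)) {w₁ wi₁ : Y₁ → F}
    {w₂ wi₂ : Y₂ → F} (hT₁ : Torus f₁ γ₁ δ₁ w₁ wi₁) (hT₂ : Torus f₂ γ₂ δ₂ w₂ wi₂) {τ : F → ℂ}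
    (hτ : IsLift τ) :
    tcon τ (fun y : Y₁ × Y₂ => f₁ y.1 * f₂ y.2) (MulEquiv.prodCongr γ₁ γ₂)
      (MulEquiv.prodCongr δ₁ δ₂) (fun y => w₁ y.1 * w₂ y.2) d =
      tcon τ f₁ γ₁ δ₁ w₁ d₁ * tcon τ f₂ γ₂ δ₂ w₂ d₂ := by
  have the := H18.theStmt
  unfold tcon
  rw [hst]
  have hb := tset_prod the hF hd₁ hn₁ hd₂ hn₂ hT₁.blk hT₂.blk hγ₁ hδ₁ hγ₂ hδ₂
  have hfin₁ : (tset (stab d₁) f₁ γ₁ δ₁).Finite :=
    (H20.ibf ℓ F hF (stab d₁)).1.subset fun φ hφ => hφ.1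
  have hfin₂ : (tset (stab d₂) f₂ γ₂ δ₂).Finite :=
    (H20.ibf ℓ F hF (stab d₂)).1.subset fun φ hφ => hφ.1
  have t₁ := H21.tsb the ℓ F hF Y₁ f₁ γ₁ δ₁ w₁ wi₁ hT₁ d₁ hd₁ hγ₁ hδ₁
  have t₂ := H21.tsb the ℓ F hF Y₂ f₂ γ₂ δ₂ w₂ wi₂ hT₂ d₂ hd₂ hγ₂ hδ₂
  have e1 := H21.FixC.stab_iff hγ₁
  have e2 := H21.FixC.stab_iff hγ₂
  have e3 := H21.FixC.stab_iff hδ₁
  have e4 := H21.FixC.stab_iff hδ₂
  have hs : ∑ᶠ φ ∈ tset ((stab d₁).prod (stab d₂)) (fun y : Y₁ × Y₂ => f₁ y.1 * f₂ y.2)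
        (MulEquiv.prodCongr γ₁ γ₂) (MulEquiv.prodCongr δ₁ δ₂),
        τ (ts ((stab d₁).prod (stab d₂)) φ (MulEquiv.prodCongr γ₁ γ₂)
          (MulEquiv.prodCongr δ₁ δ₂) (fun y => w₁ y.1 * w₂ y.2)) =
      ∑ᶠ p ∈ tset (stab d₁) f₁ γ₁ δ₁ ×ˢ tset (stab d₂) f₂ γ₂ δ₂,
        τ (ts (stab d₁) p.1 γ₁ δ₁ w₁) * τ (ts (stab d₂) p.2 γ₂ δ₂ w₂) := by
    symm
    refine finsum_mem_eq_of_bijOn _ hb ?_
    rintro ⟨φ₁, φ₂⟩ ⟨h₁, h₂⟩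
    have g₁ := t₁ φ₁ h₁
    have g₂ := t₂ φ₂ h₂
    have h3 := H17.ts_eq hF (X := (stab d₁).prod (stab d₂))
      (α := (MulEquiv.prodCongr γ₁ γ₂ : MulAut (Y₁ × Y₂)))
      (β := (MulEquiv.prodCongr δ₁ δ₂ : MulAut (Y₁ × Y₂)))
      (fun h => by
        rw [Subgroup.mem_prod, Subgroup.mem_prod]
        exact and_congr (e1 h.1) (e2 h.2)) (fun h => by
        rw [Subgroup.mem_prod, Subgroup.mem_prod]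
        exact and_congr (e3 h.1) (e4 h.2)) (isTS_prod g₁.1 g₂.1)
    show τ (ts (stab d₁) φ₁ γ₁ δ₁ w₁) * τ (ts (stab d₂) φ₂ γ₂ δ₂ w₂) = τ (ts _ (pf φ₁ φ₂) _ _ _)
    rw [h3, hτ.mul _ _ (g₁.2.2 hn₁) (g₂.2.2 hn₂)]
  rw [hs, fs_prod hfin₁ hfin₂ (fun φ => τ (ts (stab d₁) φ γ₁ δ₁ w₁))
    (fun φ => τ (ts (stab d₂) φ γ₂ δ₂ w₂)),
    Nat.card_congr ((stab d₁).prodEquiv (stab d₂)).toEquiv, Nat.card_prod]
  push_cast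
  rw [mul_inv]
  ring

end con

/-- **PRD.** -/
theorem prd : PrdStmt := by
  intro ℓ _ F _ hF Y₁ Y₂ _ _ _ _ f₁ f₂ α₁ β₁ α₂ β₂ w₁ wi₁ w₂ wi₂ hT₁ hT₂
  refine ⟨H46.isBlk_box hF.closed hT₁.blk hT₂.blk, fun τ hτ => ?_⟩
  refine H9.prc (H43.box ncg) ℓ F hF Y₁ Y₂ _ _ α₁ β₁ α₂ β₂ τ
    (fun n m d => tcon τ f₁ (tw α₁ n) (tw β₁ m) (fun y => w₁ (cc α₁ β₁ n m * y)) d)
    (fun n m d => tcon τ f₂ (tw α₂ n) (tw β₂ m) (fun y => w₂ (cc α₂ β₂ n m * y)) d) ?_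
  intro n m d₁ hd₁ hn₁ hγ₁ hδ₁ d₂ hd₂ hn₂ hγ₂ hδ₂ d _ _ _ _ hst
  obtain ⟨v₁, hv₁⟩ := (H65.shf ℓ F hF Y₁ f₁ α₁ β₁ w₁ wi₁ hT₁ n.1 m.1).1
  obtain ⟨v₂, hv₂⟩ := (H65.shf ℓ F hF Y₂ f₂ α₂ β₂ w₂ wi₂ hT₂ n.2 m.2).1
  rw [H9.tw_prod, H9.tw_prod, cc_prod]
  exact tcon_prod hF hd₁ hn₁ hd₂ hn₂ hγ₁ hδ₁ hγ₂ hδ₂ hst hv₁ hv₂ hτ

end Pool.Agent.PP.H31
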