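import Pool.Agent.Helper98_PP.StmtsR2b
import Pool.Agent.Helper51_AWC.ProdSum

/-!
# Squad PP, part R2: the two halves of PRD (pair sums of a direct product of two torus data)
-/

open scoped BigOperators

noncomputable section

namespace Pool.Agent.PP

open Pool.Agent.Helper51_AWC Pool.Agent.Helper79_WRA

open Classical in
/-- PRC (chains): if the contribution of every normal fixed chain `d` of a direct product whose
stabiliser is the product of the stabilisers of `d₁` and `d₂` is `T₁ n₁ m₁ d₁ * T₂ n₂ m₂ d₂`, then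
the pair sum is the product of the two sums. -/
def PrcStmt : Prop := ∀ (ℓ : ℕ) [Fact ℓ.Prime] (F : Type) [Field F], GoodF ℓ F →
  ∀ (Y₁ Y₂ : Type) [Group Y₁] [Finite Y₁] [Group Y₂] [Finite Y₂] (f w : Y₁ × Y₂ → F)
  (α₁ β₁ : MulAut Y₁) (α₂ β₂ : MulAut Y₂) (τ : F → ℂ)
  (T₁ : Y₁ → Y₁ → Finset (Subgroup Y₁) → ℂ) (T₂ : Y₂ → Y₂ → Finset (Subgroup Y₂) → ℂ),
  (∀ (n m : Y₁ × Y₂), ∀ d₁ ∈ chainsOn (psubIn ℓ (⊤ : Subgroup Y₁)) ⊥, NormalChain d₁ →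
    FixC (tw α₁ n.1) d₁ → FixC (tw β₁ m.1) d₁ →
    ∀ d₂ ∈ chainsOn (psubIn ℓ (⊤ : Subgroup Y₂)) ⊥, NormalChain d₂ →
    FixC (tw α₂ n.2) d₂ → FixC (tw β₂ m.2) d₂ →
    ∀ d ∈ chainsOn (psubIn ℓ (⊤ : Subgroup (Y₁ × Y₂))) ⊥, NormalChain d →
    FixC (tw (MulEquiv.prodCongr α₁ α₂) n) d → FixC (tw (MulEquiv.prodCongr β₁ β₂) m) d →
    stab d = (stab d₁).prod (stab d₂) →
    tcon τ f (tw (MulEquiv.prodCongr α₁ α₂) n) (tw (MulEquiv.prodCongr β₁ β₂) m)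
      (fun y => w (cc (MulEquiv.prodCongr α₁ α₂) (MulEquiv.prodCongr β₁ β₂) n m * y)) d =
      T₁ n.1 m.1 d₁ * T₂ n.2 m.2 d₂) →
  DD τ ℓ f (MulEquiv.prodCongr α₁ α₂) (MulEquiv.prodCongr β₁ β₂) w =
    (∑ᶠ (n : Y₁) (m : Y₁), ∑ d ∈ (chainsOn (psubIn ℓ (⊤ : Subgroup Y₁)) ⊥).filter
      (fun d => NormalChain d ∧ FixC (tw α₁ n) d ∧ FixC (tw β₁ m) d),
        (-1) ^ (d.card + 1) * T₁ n m d) *
    (∑ᶠ (n : Y₂) (m : Y₂), ∑ d ∈ (chainsOn (psubIn ℓ (⊤ : Subgroup Y₂)) ⊥).filter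
      (fun d => NormalChain d ∧ FixC (tw α₂ n) d ∧ FixC (tw β₂ m) d),
        (-1) ^ (d.card + 1) * T₂ n m d)

end Pool.Agent.PP
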